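import Pool.Agent.Q67.HV.Defs

/-!
# Job HV-L of helper67: the limit `δ → 0` at almost every time
-/

set_option autoImplicit false

open MeasureTheory Set Metric Filter Topology
open scoped InnerProductSpace ENNReal ContDiff NNReal
open H772R2.NS Pool.Agent.Q67.HV

namespace Pool.Agent.Q225.HV

lemma vor_apply (z : M3) (i : Fin 3) : vor z i = ∑ l, ∑ k, eps i l k * z (k, l) := rfl

/-- `vor` as a linear map -/
noncomputable def vorL : M3 →ₗ[ℝ] E3 where
  toFun := vor
  map_add' a b := by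
    ext i
    rw [PiLp.add_apply]
    simp only [vor_apply, PiLp.add_apply, mul_add, Finset.sum_add_distrib]
  map_smul' c a := by
    ext i
    rw [PiLp.smul_apply]
    simp only [vor_apply, PiLp.smul_apply, smul_eq_mul, RingHom.id_apply, Finset.mul_sum]
    refine Finset.sum_congr rfl fun l _ => Finset.sum_congr rfl fun k _ => ?_
    ring

lemma memLp_vor {z : E3 → M3} (hz : MemLp z 2 (volume : Measure E3)) :
    MemLp (fun x => vor (z x)) 2 (volume : Measure E3) :=
  (LinearMap.toContinuousLinearMap vorL).comp_memLp' hz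

lemma memLp_vori {z : E3 → M3} (hz : MemLp z 2 (volume : Measure E3)) (i : Fin 3) :
    MemLp (fun x => vor (z x) i) 2 (volume : Measure E3) :=
  (EuclideanSpace.proj (𝕜 := ℝ) i : E3 →L[ℝ] ℝ).comp_memLp' (memLp_vor hz)

lemma norm_le_abs (w : E3) : ‖w‖ ≤ ∑ i, |w i| := by
  have h0 : 0 ≤ ∑ i, |w i| := Finset.sum_nonneg fun i _ => abs_nonneg _
  rw [EuclideanSpace.norm_eq]
  refine Real.sqrt_le_iff.2 ⟨h0, ?_⟩
  simp only [Real.norm_eq_abs, Fin.sum_univ_three]
  have h1 := abs_nonneg (w 0)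
  have h2 := abs_nonneg (w 1)
  have h3 := abs_nonneg (w 2)
  nlinarith [mul_nonneg h1 h2, mul_nonneg h1 h3, mul_nonneg h2 h3]

lemma del_pos (n : ℕ) : (0 : ℝ) < 1 / ((n : ℝ) + 1) := by positivity

lemma del_le (n : ℕ) : (1 : ℝ) / ((n : ℝ) + 1) ≤ 1 := by
  rw [div_le_one (by positivity)]
  have : (0 : ℝ) ≤ n := Nat.cast_nonneg n
  linarith

/-! ### The `L¹` bound -/

lemma lim_ball (hE : StmE0) {z : E3 → M3} (hz : MemLp z 2 (volume : Measure E3))
    (hw : ∀ n : ℕ, MemLp (wd (1 / (n + 1)) z) 2 (volume : Measure E3)) {x₀ : E3} {R L : ℝ}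
    (h : ∀ n : ℕ, ∫ x in ball x₀ R, ‖wd (1 / (n + 1)) z x‖ ≤ L) :
    ∫ x in ball x₀ R, ‖vor (z x)‖ ≤ L := by
  have hv := memLp_vor hz
  have : IsFiniteMeasure (volume.restrict (ball x₀ R) : Measure E3) :=
    ⟨by rw [Measure.restrict_apply_univ]; exact measure_ball_lt_top⟩
  have hiv : Integrable (fun x => ‖vor (z x)‖) (volume.restrict (ball x₀ R)) :=
    ((hv.restrict (ball x₀ R)).integrable one_le_two).norm
  have hiw : ∀ n : ℕ, Integrable (fun x => ‖wd (1 / (n + 1)) z x‖) (volume.restrict (ball x₀ R)) :=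
    fun n => (((hw n).restrict (ball x₀ R)).integrable one_le_two).norm
  have ha : ∀ (n : ℕ) (i : Fin 3), MemLp (fun x => wd (1 / (n + 1)) z x i - vor (z x) i) 2
      (volume : Measure E3) := fun n i =>
    ((EuclideanSpace.proj (𝕜 := ℝ) i : E3 →L[ℝ] ℝ).comp_memLp' (hw n)).sub (memLp_vori hz i)
  have hai : ∀ (n : ℕ) (i : Fin 3), Integrable
      (fun x => (wd (1 / (n + 1)) z x i - vor (z x) i) ^ 2) (volume : Measure E3) :=
    fun n i => (ha n i).integrable_sq
  have hlim : ∀ i, Tendsto (fun n : ℕ => ∫ x, (wd (1 / (n + 1)) z x i - vor (z x) i) ^ 2) atTop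
      (𝓝 0) := fun i => (hE.2.2 (fun x => vor (z x) i) (memLp_vori hz i)).2
  set V : ℝ := volume.real (ball x₀ R) with hV
  have hV0 : 0 ≤ V := measureReal_nonneg
  have key : ∀ θ : ℝ, 0 < θ → ∫ x in ball x₀ R, ‖vor (z x)‖ ≤ L + 3 * θ * V := by
    intro θ hθ
    have h1 : ∀ n : ℕ, ∫ x in ball x₀ R, ‖vor (z x)‖ ≤ L + (3 * θ * V +
        θ⁻¹ * ∑ i, ∫ x, (wd (1 / (n + 1)) z x i - vor (z x) i) ^ 2) := by
      intro n
      have hpt : ∀ x, ‖vor (z x)‖ ≤ ‖wd (1 / (n + 1)) z x‖ + (3 * θ +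
          θ⁻¹ * ∑ i, (wd (1 / (n + 1)) z x i - vor (z x) i) ^ 2) := by
        intro x
        have e1 : ‖vor (z x)‖ ≤ ‖wd (1 / (n + 1)) z x‖ + ‖wd (1 / (n + 1)) z x - vor (z x)‖ := by
          have := norm_sub_le (wd (1 / (n + 1)) z x) (wd (1 / (n + 1)) z x - vor (z x))
          rwa [sub_sub_cancel] at this
        have e2 := norm_le_abs (wd (1 / (n + 1)) z x - vor (z x))
        have e3 : ∀ a : ℝ, |a| ≤ θ + θ⁻¹ * a ^ 2 := by
          intro a
          have h2 : θ * |a| ≤ θ * (θ + θ⁻¹ * a ^ 2) := by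
            rw [mul_add, ← mul_assoc, mul_inv_cancel₀ hθ.ne', one_mul, ← sq_abs a]
            nlinarith [sq_nonneg (θ - |a|), abs_nonneg a]
          exact le_of_mul_le_mul_left h2 hθ
        have e4 : ∑ i, |(wd (1 / (n + 1)) z x - vor (z x)) i| ≤ 3 * θ +
            θ⁻¹ * ∑ i, (wd (1 / (n + 1)) z x i - vor (z x) i) ^ 2 := by
          have h2 := Finset.sum_le_sum fun i (_ : i ∈ (Finset.univ : Finset (Fin 3))) =>
            e3 (wd (1 / (n + 1)) z x i - vor (z x) i)
          rw [Finset.sum_add_distrib, ← Finset.mul_sum, Finset.sum_const, Finset.card_univ,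
            Fintype.card_fin, nsmul_eq_mul] at h2
          simpa using h2
        linarith
      have hi2 : Integrable (fun x => 3 * θ +
          θ⁻¹ * ∑ i, (wd (1 / (n + 1)) z x i - vor (z x) i) ^ 2) (volume.restrict (ball x₀ R)) :=
        (integrable_const _).add ((integrable_finsetSum _ fun i _ =>
          (hai n i).integrableOn).const_mul _)
      have h2 := integral_mono hiv ((hiw n).add hi2) hpt
      have h3 : ∫ x in ball x₀ R, (‖wd (1 / (n + 1)) z x‖ + (3 * θ +
          θ⁻¹ * ∑ i, (wd (1 / (n + 1)) z x i - vor (z x) i) ^ 2)) =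
          (∫ x in ball x₀ R, ‖wd (1 / (n + 1)) z x‖) + (3 * θ * V +
          θ⁻¹ * ∑ i, ∫ x in ball x₀ R, (wd (1 / (n + 1)) z x i - vor (z x) i) ^ 2) := by
        rw [integral_add (hiw n) hi2, integral_add (integrable_const _)
          ((integrable_finsetSum _ fun i _ => (hai n i).integrableOn).const_mul _),
          integral_const_mul θ⁻¹, integral_finsetSum _ fun i _ => (hai n i).integrableOn,
          integral_const, smul_eq_mul, measureReal_restrict_apply_univ]
        ring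
      have h4 : ∑ i, ∫ x in ball x₀ R, (wd (1 / (n + 1)) z x i - vor (z x) i) ^ 2 ≤
          ∑ i, ∫ x, (wd (1 / (n + 1)) z x i - vor (z x) i) ^ 2 :=
        Finset.sum_le_sum fun i _ => setIntegral_le_integral (hai n i)
          (Eventually.of_forall fun x => sq_nonneg _)
      have h5 := mul_le_mul_of_nonneg_left h4 (inv_nonneg.2 hθ.le)
      have h6 := h n
      refine h2.trans ?_
      change ∫ x in ball x₀ R, (‖wd (1 / (n + 1)) z x‖ + (3 * θ +
          θ⁻¹ * ∑ i, (wd (1 / (n + 1)) z x i - vor (z x) i) ^ 2)) ≤ _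
      rw [h3]
      linarith
    have h2 : Tendsto (fun n : ℕ => L + (3 * θ * V +
        θ⁻¹ * ∑ i, ∫ x, (wd (1 / (n + 1)) z x i - vor (z x) i) ^ 2)) atTop
        (𝓝 (L + (3 * θ * V + θ⁻¹ * ∑ _i : Fin 3, (0 : ℝ)))) :=
      tendsto_const_nhds.add (tendsto_const_nhds.add
        ((tendsto_finsetSum _ fun i _ => hlim i).const_mul _))
    have h3 := ge_of_tendsto' h2 h1
    simpa using h3
  refine le_of_forall_pos_le_add fun ε hε => ?_
  have h1 := key (ε / (3 * (V + 1))) (by positivity)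
  have h2 : 3 * (ε / (3 * (V + 1))) * V ≤ ε := by
    have h3 : 3 * (ε / (3 * (V + 1))) * V = ε * (V / (V + 1)) := by
      field_simp
    rw [h3]
    have h4 : V / (V + 1) ≤ 1 := by
      rw [div_le_one (by linarith)]
      linarith
    nlinarith
  linarith

/-! ### Measurability in time -/

/-- the coefficients of the component `i` of the vorticity -/
noncomputable def cvec (i : Fin 3) : M3 := WithLp.toLp 2 fun p => eps i p.2 p.1

lemma inner_cvec (i : Fin 3) (z : M3) : ⟪cvec i, z⟫_ℝ = vor z i := by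
  rw [vor_apply, PiLp.inner_apply, Fintype.sum_prod_type, Finset.sum_comm]
  refine Finset.sum_congr rfl fun l _ => Finset.sum_congr rfl fun k _ => ?_
  change ⟪(cvec i (k, l) : ℝ), z (k, l)⟫_ℝ = _
  rw [real_inner_eq_re_inner, RCLike.inner_apply]
  simp [cvec, mul_comm]

lemma ae_univ_of (p : E3 → Prop) (h : ∀ᵐ y ∂(volume.restrict (univ : Set E3)), p y) :
    ∀ᵐ y : E3, p y := by
  rwa [Measure.restrict_univ] at h

lemma memLp_univ_of {f : E3 → M3} (h : MemLp f 2 (volume.restrict (univ : Set E3))) :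
    MemLp f 2 (volume : Measure E3) := by
  rwa [Measure.restrict_univ] at h

section meas

variable (hE : StmE0) {δ : ℝ} (hδ : 0 < δ)

include hE hδ

lemma cs_eta (x : E3) : HasCompactSupport (fun y => eta δ (x - y)) := by
  refine HasCompactSupport.intro (isCompact_closedBall x δ) fun y hy => ?_
  refine (hE.1 δ hδ).2.2.1 _ ?_
  rw [mem_closedBall, not_le, dist_comm, dist_eq_norm] at hy
  exact hy.le

lemma memLp_K (x : E3) (i : Fin 3) :
    MemLp (fun y => eta δ (x - y) • cvec i) 2 (volume.restrict (univ : Set E3)) := by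
  rw [Measure.restrict_univ]
  have hc : Continuous (fun y => eta δ (x - y) • cvec i) :=
    ((hE.1 δ hδ).1.continuous.comp (continuous_const.sub continuous_id)).smul continuous_const
  exact hc.memLp_of_hasCompactSupport (cs_eta hE hδ x).smul_right

lemma wd_inner (x : E3) (i : Fin 3) (g : L2M univ) :
    wd δ g x i = ⟪(memLp_K hE hδ x i).toLp _, g⟫_ℝ := by
  rw [L2.inner_def, setIntegral_univ]
  change ∫ y, eta δ (x - y) * vor (g y) i = _
  refine integral_congr_ae ?_
  have h := ae_univ_of _ (memLp_K hE hδ x i).coeFn_toLp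
  filter_upwards [h] with y hy
  rw [hy, real_inner_smul_left, inner_cvec]

lemma cd_wd (g : L2M univ) (i : Fin 3) : ContDiff ℝ ∞ (fun x => wd δ g x i) := by
  have hg : MemLp (g : E3 → M3) 2 (volume : Measure E3) := memLp_univ_of (Lp.memLp g)
  exact ((hE.2.2 (fun x => vor (g x) i) (memLp_vori hg i)).1 δ hδ).1

lemma meas_wd {G : ℝ → L2M univ} (hG : StronglyMeasurable G) (x : E3) (i : Fin 3) :
    Measurable (fun t => wd δ (G t) x i) := by
  have e : (fun t => wd δ (G t) x i) = fun t => ⟪(memLp_K hE hδ x i).toLp _, G t⟫_ℝ := by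
    funext t
    exact wd_inner hE hδ x i (G t)
  rw [e]
  exact (stronglyMeasurable_const.inner hG).measurable

lemma meas_fd {G : ℝ → L2M univ} (hG : StronglyMeasurable G) (x : E3) (i j : Fin 3) :
    Measurable (fun t => fderiv ℝ (fun y => wd δ (G t) y i) x (ev j)) := by
  refine measurable_of_tendsto_metrizable (f := fun (n : ℕ) t =>
    (n : ℝ) * (wd δ (G t) (x + (n : ℝ)⁻¹ • ev j) i - wd δ (G t) x i)) (fun n => ?_) ?_
  · exact ((meas_wd hE hδ hG _ i).sub (meas_wd hE hδ hG x i)).const_mul _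
  · rw [tendsto_pi_nhds]
    intro t
    have h := ((cd_wd hE hδ (G t) i).differentiable (by simp) x).hasFDerivAt
    exact (h.lim_real (ev j)).comp tendsto_natCast_atTop_atTop

lemma meas_I {G : ℝ → L2M univ} (hG : StronglyMeasurable G) (x₀ : E3) (r : ℝ) :
    Measurable (fun t => ∫⁻ x in ball x₀ r,
      ENNReal.ofReal (gs (wd δ (G t)) x / (1 + ‖wd δ (G t) x‖ ^ 2))) := by
  have hc : ∀ t, Continuous fun x => gs (wd δ (G t)) x / (1 + ‖wd δ (G t) x‖ ^ 2) := by
    intro t
    have h1 : ∀ i, ContDiff ℝ ∞ (fun x => wd δ (G t) x i) := cd_wd hE hδ (G t)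
    have h2 : Continuous (gs (wd δ (G t))) := by
      unfold gs
      exact continuous_finsetSum _ fun i _ => continuous_finsetSum _ fun j _ =>
        (((h1 i).fderiv_right (m := ∞) (by simp)).clm_apply contDiff_const).continuous.pow 2
    have h3 : Continuous (fun x => 1 + ‖wd δ (G t) x‖ ^ 2) := by
      have e : (fun x => 1 + ‖wd δ (G t) x‖ ^ 2) = fun x => 1 + ∑ i, wd δ (G t) x i ^ 2 := by
        funext x
        rw [EuclideanSpace.norm_sq_eq]
        simp [Real.norm_eq_abs, sq_abs]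
      rw [e]
      exact continuous_const.add (continuous_finsetSum _ fun i _ => (h1 i).continuous.pow 2)
    exact h2.div h3 fun x => by positivity
  have hm : ∀ x, Measurable fun t => gs (wd δ (G t)) x / (1 + ‖wd δ (G t) x‖ ^ 2) := by
    intro x
    have h2 : Measurable (fun t => gs (wd δ (G t)) x) := by
      unfold gs
      exact Finset.measurable_fun_sum _ fun i _ => Finset.measurable_fun_sum _ fun j _ =>
        (meas_fd hE hδ hG x i j).pow_const 2
    have h3 : Measurable (fun t => 1 + ‖wd δ (G t) x‖ ^ 2) := by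
      have e : (fun t => 1 + ‖wd δ (G t) x‖ ^ 2) = fun t => 1 + ∑ i, wd δ (G t) x i ^ 2 := by
        funext t
        rw [EuclideanSpace.norm_sq_eq]
        simp [Real.norm_eq_abs, sq_abs]
      rw [e]
      exact measurable_const.add (Finset.measurable_fun_sum _ fun i _ =>
        (meas_wd hE hδ hG x i).pow_const 2)
    exact h2.div h3
  have h := measurable_uncurry_of_continuous_of_measurable
    (u := fun x t => gs (wd δ (G t)) x / (1 + ‖wd δ (G t) x‖ ^ 2)) hc hm
  exact Measurable.lintegral_prod_left' (μ := volume.restrict (ball x₀ r))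
    (f := fun p : E3 × ℝ => ENNReal.ofReal
      (gs (wd δ (G p.2)) p.1 / (1 + ‖wd δ (G p.2) p.1‖ ^ 2))) h.ennreal_ofReal

end meas

/-- the integrals in the definition of `Reg` -/
noncomputable def II (N n : ℕ) (z : E3 → M3) : ℝ≥0∞ := ∫⁻ x in ball (0 : E3) N,
    ENNReal.ofReal (gs (wd (1 / (n + 1)) z) x / (1 + ‖wd (1 / (n + 1)) z x‖ ^ 2))

lemma reg_iff (z : E3 → M3) :
    Reg z ↔ ∀ N : ℕ, ∃ M : ℝ, ∃ᶠ n : ℕ in atTop, II N n z ≤ ENNReal.ofReal M := Iff.rfl

lemma II_zero (n : ℕ) (z : E3 → M3) : II 0 n z = 0 := by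
  unfold II
  rw [Nat.cast_zero, ball_zero, Measure.restrict_empty, lintegral_zero_measure]

lemma meas_II (hE : StmE0) {G : ℝ → L2M univ} (hG : StronglyMeasurable G) (N n : ℕ) :
    Measurable (fun t => II N n (G t)) := by
  have h := meas_I hE (del_pos n) hG 0 (N : ℝ)
  unfold II
  exact h

lemma fatou_freq (hE : StmE0) {G : ℝ → L2M univ} {μ : Measure ℝ} (hG : AEStronglyMeasurable G μ)
    {N : ℕ} {L : ℝ} (hL : ∀ n : ℕ, ∫⁻ t, II N n (G t) ∂μ ≤ ENNReal.ofReal L) :
    ∀ᵐ t ∂μ, ∃ M : ℝ, ∃ᶠ n : ℕ in atTop, II N n (G t) ≤ ENNReal.ofReal M := by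
  obtain ⟨G', hG', hGG⟩ := hG
  have hIm : ∀ n, Measurable (fun t => II N n (G' t)) := meas_II hE hG' N
  have hL' : ∀ n : ℕ, ∫⁻ t, II N n (G' t) ∂μ ≤ ENNReal.ofReal L := by
    intro n
    refine le_trans (le_of_eq (lintegral_congr_ae ?_)) (hL n)
    filter_upwards [hGG] with t ht
    rw [ht]
  have hF : ∫⁻ t, liminf (fun n => II N n (G' t)) atTop ∂μ ≤
      liminf (fun n => ∫⁻ t, II N n (G' t) ∂μ) atTop := lintegral_liminf_le hIm
  have hb : liminf (fun n => ∫⁻ t, II N n (G' t) ∂μ) atTop ≤ ENNReal.ofReal L :=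
    liminf_le_of_frequently_le' (Eventually.frequently (Eventually.of_forall hL'))
  have hlt : ∫⁻ t, liminf (fun n => II N n (G' t)) atTop ∂μ ≠ ⊤ :=
    ((hF.trans hb).trans_lt ENNReal.ofReal_lt_top).ne
  have hme : Measurable (fun t => liminf (fun n => II N n (G' t)) atTop) :=
    Measurable.liminf hIm
  filter_upwards [ae_lt_top hme hlt, hGG] with t ht ht2
  obtain ⟨M, hM⟩ := ENNReal.lt_iff_exists_nnreal_btwn.1 ht
  refine ⟨M, (frequently_lt_of_liminf_lt (by isBoundedDefault) hM.1).mono fun n hn => ?_⟩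
  rw [ENNReal.ofReal_coe_nnreal, ht2]
  exact hn.le

theorem stmL (hH0 : StmH0) (hE : StmE0) (hW : StmW) (hB : StmB) : StmL := by
  intro ν T R u G hν hT hR hsol s z hs hsT hz
  obtain ⟨L, hL⟩ := hB ν T R u G hν hT hR hsol s z hs hsT hz
  refine ⟨L, ?_⟩
  have hsub : Ioo s T ⊆ Ioo 0 T := Ioo_subset_Ioo_left hs
  -- the pairs are in the graph
  have h1 : ∀ᵐ t ∂(volume.restrict (Ioo s T)), HS (u t) (G t) := by
    filter_upwards [ae_restrict_of_ae_restrict_of_subset hsub hsol.grad] with t ht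
    refine hH0 (u t, G t) ?_
    rw [← SetLike.mem_coe, graphW_coe]
    exact ht
  -- the regularity
  have hGm : AEStronglyMeasurable G (volume.restrict (Ioo s T)) :=
    (hsol.gradL2.1).mono_measure (Measure.restrict_mono hsub le_rfl)
  have h2 : ∀ᵐ t ∂(volume.restrict (Ioo s T)), ∀ N : ℕ, ∃ M : ℝ, ∃ᶠ n : ℕ in atTop,
      II N n (G t) ≤ ENNReal.ofReal M := by
    rw [ae_all_iff]
    intro N
    rcases Nat.eq_zero_or_pos N with hN | hN
    · refine Eventually.of_forall fun t => ⟨0, Eventually.frequently (Eventually.of_forall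
        fun n => ?_)⟩
      rw [hN, II_zero]
      exact bot_le
    · have hN0 : (0 : ℝ) < N := by exact_mod_cast hN
      obtain ⟨LN, hLN⟩ := hB ν T N u G hν hT hN0 hsol s z hs hsT hz
      exact fatou_freq hE hGm (L := LN) fun n => (hLN (1 / (n + 1)) 0 (del_pos n) (del_le n)).2
  filter_upwards [h1, h2, ae_restrict_mem measurableSet_Ioo] with t ht1 ht2 ht3
  refine ⟨ht1, (reg_iff _).2 ht2, fun x₀ => ?_⟩
  have hWt := hW.2 _ _ ht1
  refine lim_ball hE ht1.mz (fun n => (hWt _ (del_pos n)).2.2.2.1) fun n => ?_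
  have h3 := (hL (1 / (n + 1)) x₀ (del_pos n) (del_le n)).1 t (Ioo_subset_Icc_self ht3)
  refine le_trans (le_of_eq ?_) h3
  refine integral_congr_ae (Eventually.of_forall fun x => ?_)
  change ‖_‖ = ‖_‖
  rw [(hWt _ (del_pos n)).1 x]

end Pool.Agent.Q225.HV
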