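import Pool.Agent.Q67.HV.Defs

/-!
# Job HV-P of helper67: two integrations by parts in space with the convex function `Phi`
-/

set_option autoImplicit false

open MeasureTheory Set Metric Filter Topology
open scoped InnerProductSpace ENNReal ContDiff NNReal
open H772R2.NS Pool.Agent.Q67.HV

namespace Pool.Agent.Q225.HV

/-! ### Directional derivatives -/

lemma fd_mul {f g : E3 → ℝ} {x : E3} (hf : DifferentiableAt ℝ f x) (hg : DifferentiableAt ℝ g x)
    (v : E3) : fderiv ℝ (fun y => f y * g y) x v =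
      f x * fderiv ℝ g x v + g x * fderiv ℝ f x v := by
  rw [fderiv_fun_mul hf hg]
  simp

lemma fd_comp {φ : ℝ → ℝ} {φ' : ℝ} {f : E3 → ℝ} {x : E3} (hφ : HasDerivAt φ φ' (f x))
    (hf : DifferentiableAt ℝ f x) (v : E3) :
    fderiv ℝ (fun y => φ (f y)) x v = φ' * fderiv ℝ f x v := by
  have h := hφ.comp_hasFDerivAt x hf.hasFDerivAt
  have e : fderiv ℝ (fun y => φ (f y)) x = φ' • fderiv ℝ f x := h.fderiv
  rw [e]
  simp

lemma fd_sum {f : Fin 3 → E3 → ℝ} {x : E3} (hf : ∀ i, DifferentiableAt ℝ (f i) x) (v : E3) :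
    fderiv ℝ (fun y => ∑ i, f i y) x v = ∑ i, fderiv ℝ (f i) x v := by
  rw [fderiv_fun_sum fun i _ => hf i]
  simp

lemma cd_dir {f : E3 → ℝ} (hf : ContDiff ℝ ∞ f) (v : E3) :
    ContDiff ℝ ∞ (fun x => fderiv ℝ f x v) :=
  (hf.fderiv_right (m := ∞) (by simp)).clm_apply contDiff_const

lemma cd_da {f : E3 → ℝ} (hf : ContDiff ℝ ∞ f) (x : E3) : DifferentiableAt ℝ f x :=
  (hf.differentiable (by simp)) x

/-! ### The function `Phi` -/

/-- `1 + |W|²` -/
noncomputable def qq (W : E3 → E3) (x : E3) : ℝ := 1 + ∑ i, W x i ^ 2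

lemma qq_eq (W : E3 → E3) (x : E3) : 1 + ‖W x‖ ^ 2 = qq W x := by
  unfold qq
  rw [EuclideanSpace.norm_sq_eq]
  simp [Real.norm_eq_abs, sq_abs]

lemma one_le_qq (W : E3 → E3) (x : E3) : 1 ≤ qq W x := by
  unfold qq
  have : 0 ≤ ∑ i, W x i ^ 2 := Finset.sum_nonneg fun i _ => sq_nonneg _
  linarith

variable {W : E3 → E3}

lemma cd_qq (hW : ∀ i, ContDiff ℝ ∞ (fun x => W x i)) : ContDiff ℝ ∞ (qq W) := by
  unfold qq
  exact contDiff_const.add (ContDiff.sum fun i _ => (hW i).pow 2)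

lemma fd_qq (hW : ∀ i, ContDiff ℝ ∞ (fun x => W x i)) (x v : E3) :
    fderiv ℝ (qq W) x v = 2 * ∑ i, W x i * fderiv ℝ (fun y => W y i) x v := by
  unfold qq
  rw [fderiv_const_add, fd_sum (f := fun i y => W y i ^ 2)
    (fun i => (cd_da (hW i) x).pow 2), Finset.mul_sum]
  refine Finset.sum_congr rfl fun i _ => ?_
  have h := fd_comp (φ := fun t : ℝ => t ^ 2) (φ' := 2 * W x i) (f := fun y => W y i) (x := x)
    (by simpa using hasDerivAt_pow 2 (W x i)) (cd_da (hW i) x) v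
  rw [h]
  ring

/-- `Phi` as a function of `1 + |a|²` -/
noncomputable def PF (t : ℝ) : ℝ := 2 * √t - Real.log t / 2

/-- `gPhi` as a function of `1 + |a|²` -/
noncomputable def cF (t : ℝ) : ℝ := 2 / √t - 1 / t

lemma Phi_eq (x : E3) : Phi (W x) = PF (qq W x) := by
  unfold Phi PF
  rw [qq_eq]

lemma gPhi_eq (x : E3) (i : Fin 3) : gPhi (W x) i = cF (qq W x) * W x i := by
  unfold gPhi cF
  rw [qq_eq]

lemma hd_PF {t : ℝ} (ht : 0 < t) : HasDerivAt PF (cF t / 2) t := by
  have h1 := (Real.hasDerivAt_sqrt ht.ne').const_mul 2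
  have h2 := (Real.hasDerivAt_log ht.ne').div_const 2
  have h3 := h1.sub h2
  have hs : √t ≠ 0 := (Real.sqrt_pos.2 ht).ne'
  refine h3.congr_deriv ?_
  unfold cF
  field_simp

lemma hd_cF {t : ℝ} (ht : 0 < t) : HasDerivAt cF (-1 / (√t) ^ 3 + 1 / (√t) ^ 4) t := by
  have hs0 := Real.sqrt_pos.2 ht
  have hs : √t ≠ 0 := hs0.ne'
  have h1 := ((Real.hasDerivAt_sqrt ht.ne').inv hs).const_mul 2
  have h2 := hasDerivAt_inv ht.ne'
  have h3 := h1.sub h2
  have e : cF = fun t => 2 * (√t)⁻¹ - t⁻¹ := by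
    funext t
    unfold cF
    rw [div_eq_mul_inv, one_div]
  rw [e]
  refine h3.congr_deriv ?_
  have h4 : t = √t ^ 2 := (Real.sq_sqrt ht.le).symm
  have h5 : (t ^ 2)⁻¹ = ((√t) ^ 4)⁻¹ := by
    rw [show (√t) ^ 4 = ((√t) ^ 2) ^ 2 by ring, ← h4]
  rw [h5]
  field_simp
  ring

lemma Phi_nonneg (a : E3) : 0 ≤ Phi a := by
  unfold Phi
  have h1 : (1 : ℝ) ≤ 1 + ‖a‖ ^ 2 := by have := sq_nonneg ‖a‖; linarith
  have h0 : (0 : ℝ) < 1 + ‖a‖ ^ 2 := by linarith
  have hs : 0 < √(1 + ‖a‖ ^ 2) := Real.sqrt_pos.2 h0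
  have h2 : Real.log (1 + ‖a‖ ^ 2) = 2 * Real.log √(1 + ‖a‖ ^ 2) := by
    rw [Real.log_sqrt h0.le]
    ring
  have h3 := Real.log_le_sub_one_of_pos hs
  rw [h2]
  linarith

lemma cd_Phi (hW : ∀ i, ContDiff ℝ ∞ (fun x => W x i)) : ContDiff ℝ ∞ (fun x => Phi (W x)) := by
  have e : (fun x => Phi (W x)) = fun x => 2 * √(qq W x) - Real.log (qq W x) / 2 := by
    funext x
    exact Phi_eq x
  rw [e]
  have h0 : ∀ x, qq W x ≠ 0 := fun x => by have := one_le_qq W x; linarith
  exact (contDiff_const.mul ((cd_qq hW).sqrt h0)).sub (((cd_qq hW).log h0).div_const 2)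

lemma cd_gPhi (hW : ∀ i, ContDiff ℝ ∞ (fun x => W x i)) (i : Fin 3) :
    ContDiff ℝ ∞ (fun x => gPhi (W x) i) := by
  have e : (fun x => gPhi (W x) i) = fun x => (2 / √(qq W x) - 1 / qq W x) * W x i := by
    funext x
    exact gPhi_eq x i
  rw [e]
  have h0 : ∀ x, 0 < qq W x := fun x => by have := one_le_qq W x; linarith
  have h1 : ContDiff ℝ ∞ (fun x => √(qq W x)) := (cd_qq hW).sqrt fun x => (h0 x).ne'
  exact ((contDiff_const.div h1 fun x => (Real.sqrt_pos.2 (h0 x)).ne').sub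
    (contDiff_const.div (cd_qq hW) fun x => (h0 x).ne')).mul (hW i)

lemma fd_Phi (hW : ∀ i, ContDiff ℝ ∞ (fun x => W x i)) (x v : E3) :
    fderiv ℝ (fun y => Phi (W y)) x v =
      ∑ i, gPhi (W x) i * fderiv ℝ (fun y => W y i) x v := by
  have h0 : 0 < qq W x := by have := one_le_qq W x; linarith
  have e : (fun x => Phi (W x)) = fun x => PF (qq W x) := by
    funext x
    exact Phi_eq x
  rw [e, fd_comp (hd_PF h0) (cd_da (cd_qq hW) x), fd_qq hW, Finset.mul_sum, Finset.mul_sum]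
  refine Finset.sum_congr rfl fun i _ => ?_
  rw [gPhi_eq]
  ring

lemma fd_gPhi (hW : ∀ i, ContDiff ℝ ∞ (fun x => W x i)) (i : Fin 3) (x v : E3) :
    fderiv ℝ (fun y => gPhi (W y) i) x v = cF (qq W x) * fderiv ℝ (fun y => W y i) x v +
      W x i * ((-1 / (√(qq W x)) ^ 3 + 1 / (√(qq W x)) ^ 4) *
        (2 * ∑ k, W x k * fderiv ℝ (fun y => W y k) x v)) := by
  have h0 : 0 < qq W x := by have := one_le_qq W x; linarith
  have e : (fun x => gPhi (W x) i) = fun x => cF (qq W x) * W x i := by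
    funext x
    exact gPhi_eq x i
  have hd : DifferentiableAt ℝ (fun y => cF (qq W y)) x :=
    (hd_cF h0).differentiableAt.comp x (cd_da (cd_qq hW) x)
  rw [e, fd_mul hd (cd_da (hW i) x), fd_comp (hd_cF h0) (cd_da (cd_qq hW) x), fd_qq hW]

lemma dd_Phi (hW : ∀ i, ContDiff ℝ ∞ (fun x => W x i)) (x v : E3) :
    (∑ i, gPhi (W x) i * fderiv ℝ (fun y => fderiv ℝ (fun y => W y i) y v) x v) +
      (∑ i, (fderiv ℝ (fun y => W y i) x v) ^ 2) / qq W x ≤
    fderiv ℝ (fun y => fderiv ℝ (fun y => Phi (W y)) y v) x v := by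
  have h1 := one_le_qq W x
  have h0 : 0 < qq W x := by linarith
  have e : (fun y => fderiv ℝ (fun y => Phi (W y)) y v) =
      fun y => ∑ i, gPhi (W y) i * fderiv ℝ (fun y => W y i) y v := by
    funext y
    exact fd_Phi hW y v
  rw [e, fd_sum (f := fun i y => gPhi (W y) i * fderiv ℝ (fun y => W y i) y v)
    (fun i => (cd_da (cd_gPhi hW i) x).mul (cd_da (cd_dir (hW i) v) x))]
  have e2 : ∀ i, fderiv ℝ (fun y => gPhi (W y) i * fderiv ℝ (fun y => W y i) y v) x v =
      gPhi (W x) i * fderiv ℝ (fun y => fderiv ℝ (fun y => W y i) y v) x v +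
      fderiv ℝ (fun y => W y i) x v * fderiv ℝ (fun y => gPhi (W y) i) x v := fun i =>
    fd_mul (cd_da (cd_gPhi hW i) x) (cd_da (cd_dir (hW i) v) x) v
  rw [Finset.sum_congr rfl fun i _ => e2 i, Finset.sum_add_distrib]
  have e3 : ∑ i, fderiv ℝ (fun y => W y i) x v * fderiv ℝ (fun y => gPhi (W y) i) x v =
      cF (qq W x) * (∑ i, (fderiv ℝ (fun y => W y i) x v) ^ 2) +
      2 * (-1 / (√(qq W x)) ^ 3 + 1 / (√(qq W x)) ^ 4) *
        (∑ k, W x k * fderiv ℝ (fun y => W y k) x v) ^ 2 := by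
    have e4 : ∀ i, fderiv ℝ (fun y => W y i) x v * fderiv ℝ (fun y => gPhi (W y) i) x v =
        cF (qq W x) * (fderiv ℝ (fun y => W y i) x v) ^ 2 +
        2 * (-1 / (√(qq W x)) ^ 3 + 1 / (√(qq W x)) ^ 4) *
        (∑ k, W x k * fderiv ℝ (fun y => W y k) x v) *
          (W x i * fderiv ℝ (fun y => W y i) x v) := fun i => by
      rw [fd_gPhi hW i x v]
      ring
    rw [Finset.sum_congr rfl fun i _ => e4 i, Finset.sum_add_distrib, ← Finset.mul_sum,
      ← Finset.mul_sum]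
    ring
  rw [e3]
  set B := ∑ i, (fderiv ℝ (fun y => W y i) x v) ^ 2 with hB
  set d := ∑ k, W x k * fderiv ℝ (fun y => W y k) x v with hd
  have hCS : d ^ 2 ≤ (∑ i, W x i ^ 2) * B := Finset.sum_mul_sq_le_sq_mul_sq _ _ _
  have hB0 : 0 ≤ B := Finset.sum_nonneg fun i _ => sq_nonneg _
  set s := √(qq W x) with hs
  have hs1 : 1 ≤ s := Real.one_le_sqrt.2 h1
  have hq : qq W x = s ^ 2 := (Real.sq_sqrt h0.le).symm
  have hCS2 : d ^ 2 ≤ s ^ 2 * B := by
    rw [← hq]
    unfold qq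
    nlinarith
  have hcF : cF (qq W x) = 2 / s - 1 / s ^ 2 := by
    unfold cF
    rw [← hs, hq]
  rw [hcF, hq]
  have hs0 : 0 < s := by linarith
  have key : (2 / s - 1 / s ^ 2) * B + 2 * (-1 / s ^ 3 + 1 / s ^ 4) * d ^ 2 - B / s ^ 2 =
      2 * (s - 1) / s ^ 4 * (s ^ 2 * B - d ^ 2) := by
    field_simp
    ring
  have key2 : 0 ≤ 2 * (s - 1) / s ^ 4 * (s ^ 2 * B - d ^ 2) := by
    refine mul_nonneg (div_nonneg (by linarith) (by positivity)) (by linarith)
  linarith

/-! ### Integration by parts -/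

variable {χ : E3 → ℝ}

lemma int_cut {g : E3 → ℝ} (hg : Continuous g) (hχ : Cut χ) : Integrable (fun x => χ x * g x) :=
  (hχ.smooth.continuous.mul hg).integrable_of_hasCompactSupport hχ.compact.mul_right

lemma cs_dir {f : E3 → ℝ} (hf : HasCompactSupport f) (v : E3) :
    HasCompactSupport (fun x => fderiv ℝ f x v) :=
  (hf.fderiv (𝕜 := ℝ)).comp_left (g := fun L : E3 →L[ℝ] ℝ => L v) (by simp)

lemma int_cs {f g : E3 → ℝ} (hf : Continuous f) (hg : Continuous g) (hc : HasCompactSupport f) :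
    Integrable (fun x => f x * g x) :=
  (hf.mul hg).integrable_of_hasCompactSupport hc.mul_right

lemma ibp1 {f g : E3 → ℝ} (hf : ContDiff ℝ ∞ f) (hg : ContDiff ℝ ∞ g) (hc : HasCompactSupport f)
    (v : E3) : ∫ x, f x * fderiv ℝ g x v = -∫ x, fderiv ℝ f x v * g x :=
  integral_mul_fderiv_eq_neg_fderiv_mul_of_integrable
    (int_cs (cd_dir hf v).continuous hg.continuous (cs_dir hc v))
    (int_cs hf.continuous (cd_dir hg v).continuous hc)
    (int_cs hf.continuous hg.continuous hc)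
    (fun x _ => cd_da hf x) (fun x _ => cd_da hg x)

lemma ibp2 {f g : E3 → ℝ} (hf : ContDiff ℝ ∞ f) (hg : ContDiff ℝ ∞ g) (hc : HasCompactSupport f)
    (v : E3) : ∫ x, f x * fderiv ℝ (fun y => fderiv ℝ g y v) x v =
      ∫ x, fderiv ℝ (fun y => fderiv ℝ f y v) x v * g x := by
  rw [ibp1 hf (cd_dir hg v) hc, ibp1 (cd_dir hf v) hg (cs_dir hc v), neg_neg]

lemma ibp_lapl {f g : E3 → ℝ} (hf : ContDiff ℝ ∞ f) (hg : ContDiff ℝ ∞ g)
    (hc : HasCompactSupport f) : ∫ x, f x * lapl g x = ∫ x, g x * lapl f x := by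
  unfold lapl
  have e1 : ∀ x, f x * (∑ j, fderiv ℝ (fun y => fderiv ℝ g y (ev j)) x (ev j)) =
      ∑ j, f x * fderiv ℝ (fun y => fderiv ℝ g y (ev j)) x (ev j) := fun x => Finset.mul_sum _ _ _
  have e2 : ∀ x, g x * (∑ j, fderiv ℝ (fun y => fderiv ℝ f y (ev j)) x (ev j)) =
      ∑ j, fderiv ℝ (fun y => fderiv ℝ f y (ev j)) x (ev j) * g x := fun x => by
    rw [Finset.mul_sum]
    exact Finset.sum_congr rfl fun j _ => mul_comm _ _
  simp_rw [e1, e2]
  rw [integral_finsetSum, integral_finsetSum]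
  · exact Finset.sum_congr rfl fun j _ => ibp2 hf hg hc (ev j)
  · intro j _
    exact int_cs (cd_dir (cd_dir hf _) _).continuous hg.continuous (cs_dir (cs_dir hc _) _)
  · intro j _
    exact int_cs hf.continuous (cd_dir (cd_dir hg _) _).continuous hc

lemma cont_lapl {f : E3 → ℝ} (hf : ContDiff ℝ ∞ f) : Continuous (lapl f) := by
  unfold lapl
  exact continuous_finsetSum _ fun j _ => (cd_dir (cd_dir hf _) _).continuous

lemma cs_lapl {f : E3 → ℝ} (hc : HasCompactSupport f) : HasCompactSupport (lapl f) := by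
  have h : ∀ j, HasCompactSupport (fun x => fderiv ℝ (fun y => fderiv ℝ f y (ev j)) x (ev j)) :=
    fun j => cs_dir (cs_dir hc _) _
  have e : lapl f = fun x => (fderiv ℝ (fun y => fderiv ℝ f y (ev 0)) x (ev 0) +
      fderiv ℝ (fun y => fderiv ℝ f y (ev 1)) x (ev 1)) +
      fderiv ℝ (fun y => fderiv ℝ f y (ev 2)) x (ev 2) := by
    funext x
    unfold lapl
    rw [Fin.sum_univ_three]
  rw [e]
  exact ((h 0).add (h 1)).add (h 2)

lemma first (hW : ∀ i, ContDiff ℝ ∞ (fun x => W x i)) (hχ : Cut χ) :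
    (∫ x, χ x * ∑ i, gPhi (W x) i * lapl (fun y => W y i) x)
      + (∫ x, χ x * (gs W x / (1 + ‖W x‖ ^ 2))) ≤ ∫ x, Phi (W x) * |lapl χ x| := by
  have hq0 : ∀ x, 0 < qq W x := fun x => by have := one_le_qq W x; linarith
  have hc1 : Continuous (fun x => ∑ i, gPhi (W x) i * lapl (fun y => W y i) x) :=
    continuous_finsetSum _ fun i _ => (cd_gPhi hW i).continuous.mul (cont_lapl (hW i))
  have hgs : Continuous (gs W) := by
    unfold gs
    exact continuous_finsetSum _ fun i _ => continuous_finsetSum _ fun j _ =>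
      (cd_dir (hW i) (ev j)).continuous.pow 2
  have hc2 : Continuous (fun x => gs W x / (1 + ‖W x‖ ^ 2)) := by
    have e : (fun x => gs W x / (1 + ‖W x‖ ^ 2)) = fun x => gs W x / qq W x := by
      funext x
      rw [qq_eq]
    rw [e]
    exact hgs.div (cd_qq hW).continuous fun x => (hq0 x).ne'
  rw [← integral_add (int_cut hc1 hχ) (int_cut hc2 hχ)]
  have hpt : ∀ x, χ x * (∑ i, gPhi (W x) i * lapl (fun y => W y i) x) +
      χ x * (gs W x / (1 + ‖W x‖ ^ 2)) ≤ χ x * lapl (fun y => Phi (W y)) x := by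
    intro x
    rw [← mul_add]
    refine mul_le_mul_of_nonneg_left ?_ (hχ.nonneg x)
    have h := Finset.sum_le_sum fun j (_ : j ∈ (Finset.univ : Finset (Fin 3))) =>
      dd_Phi hW x (ev j)
    rw [Finset.sum_add_distrib, Finset.sum_comm, ← Finset.sum_div, Finset.sum_comm (f := fun j i =>
      (fderiv ℝ (fun y => W y i) x (ev j)) ^ 2)] at h
    unfold lapl gs
    rw [qq_eq]
    simp_rw [Finset.mul_sum]
    exact h
  have h1 : ∫ x, (χ x * (∑ i, gPhi (W x) i * lapl (fun y => W y i) x) +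
      χ x * (gs W x / (1 + ‖W x‖ ^ 2))) ≤ ∫ x, χ x * lapl (fun y => Phi (W y)) x :=
    integral_mono ((int_cut hc1 hχ).add (int_cut hc2 hχ)) (int_cut (cont_lapl (cd_Phi hW)) hχ) hpt
  refine h1.trans ?_
  rw [ibp_lapl hχ.smooth (cd_Phi hW) hχ.compact]
  have hi : Integrable (fun x => Phi (W x) * lapl χ x) := by
    have h := int_cs (cont_lapl hχ.smooth) (cd_Phi hW).continuous (cs_lapl hχ.compact)
    exact h.congr (Eventually.of_forall fun x => mul_comm _ _)
  refine integral_mono hi ?_ fun x => mul_le_mul_of_nonneg_left (le_abs_self _) (Phi_nonneg _)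
  have h := hi.abs
  refine h.congr (Eventually.of_forall fun x => ?_)
  change |Phi (W x) * lapl χ x| = _
  rw [abs_mul, abs_of_nonneg (Phi_nonneg _)]

lemma int_v {v : E3 → E3} (hv : MemLp v 2 (volume : Measure E3)) (j : Fin 3) {g : E3 → ℝ}
    (hg : Continuous g) (hc : HasCompactSupport g) : Integrable (fun x => v x j * g x) := by
  have h1 : LocallyIntegrable v := hv.locallyIntegrable one_le_two
  have h2 := h1.integrable_smul_left_of_hasCompactSupport hg hc
  have h3 := (EuclideanSpace.proj (𝕜 := ℝ) j : E3 →L[ℝ] ℝ).integrable_comp h2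
  refine h3.congr (Eventually.of_forall fun x => ?_)
  simp [mul_comm]

lemma int_z {z : E3 → M3} (hz : MemLp z 2 (volume : Measure E3)) (p : Fin 3 × Fin 3) {g : E3 → ℝ}
    (hg : Continuous g) (hc : HasCompactSupport g) : Integrable (fun x => z x p * g x) := by
  have h1 : LocallyIntegrable z := hz.locallyIntegrable one_le_two
  have h2 := h1.integrable_smul_left_of_hasCompactSupport hg hc
  have h3 := (EuclideanSpace.proj (𝕜 := ℝ) p : M3 →L[ℝ] ℝ).integrable_comp h2
  refine h3.congr (Eventually.of_forall fun x => ?_)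
  simp [mul_comm]

lemma second (hW : ∀ i, ContDiff ℝ ∞ (fun x => W x i)) (hχ : Cut χ) {v : E3 → E3} {z : E3 → M3}
    (h : HS v z) :
    ∫ x, χ x * ∑ i, gPhi (W x) i * ∑ j, v x j * fderiv ℝ (fun y => W y i) x (ev j)
      = -∫ x, Phi (W x) * ∑ j, v x j * fderiv ℝ χ x (ev j) := by
  have hf := cd_Phi hW
  have hψ : ContDiff ℝ ∞ (fun x => χ x * Phi (W x)) := hχ.smooth.mul hf
  have hψc : HasCompactSupport (fun x => χ x * Phi (W x)) := hχ.compact.mul_right
  -- the sum over the diagonal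
  have h0 : ∑ j, ∫ x, v x j * fderiv ℝ (fun x => χ x * Phi (W x)) x (ev j) = 0 := by
    rw [Finset.sum_congr rfl fun j _ => h.grad _ hψ hψc j j, Finset.sum_neg_distrib,
      ← integral_finsetSum]
    · rw [neg_eq_zero]
      rw [show (0 : ℝ) = ∫ _ : E3, (0 : ℝ) by simp]
      refine integral_congr_ae ?_
      filter_upwards [h.div] with x hx
      rw [← Finset.sum_mul, hx, zero_mul]
    · intro j _
      exact int_z h.mz (j, j) hψ.continuous hψc
  have e1 : ∀ j, ∫ x, v x j * fderiv ℝ (fun x => χ x * Phi (W x)) x (ev j) =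
      (∫ x, v x j * (χ x * fderiv ℝ (fun x => Phi (W x)) x (ev j))) +
        ∫ x, v x j * (Phi (W x) * fderiv ℝ χ x (ev j)) := by
    intro j
    rw [← integral_add]
    · refine integral_congr_ae (Eventually.of_forall fun x => ?_)
      change v x j * _ = _
      rw [fd_mul (cd_da hχ.smooth x) (cd_da hf x)]
      ring
    · exact int_v h.mv j (hχ.smooth.continuous.mul (cd_dir hf _).continuous) hχ.compact.mul_right
    · exact int_v h.mv j (hf.continuous.mul (cd_dir hχ.smooth _).continuous)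
        (cs_dir hχ.compact _).mul_left
  rw [Finset.sum_congr rfl fun j _ => e1 j, Finset.sum_add_distrib] at h0
  have e2 : ∫ x, χ x * ∑ i, gPhi (W x) i * ∑ j, v x j * fderiv ℝ (fun y => W y i) x (ev j) =
      ∑ j, ∫ x, v x j * (χ x * fderiv ℝ (fun x => Phi (W x)) x (ev j)) := by
    rw [← integral_finsetSum]
    · refine integral_congr_ae (Eventually.of_forall fun x => ?_)
      change χ x * _ = ∑ j, v x j * (χ x * fderiv ℝ (fun x => Phi (W x)) x (ev j))
      have e5 : ∀ j, v x j * (χ x * fderiv ℝ (fun x => Phi (W x)) x (ev j)) =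
          ∑ i, χ x * (gPhi (W x) i * (v x j * fderiv ℝ (fun y => W y i) x (ev j))) := fun j => by
        rw [fd_Phi hW x (ev j), Finset.mul_sum, Finset.mul_sum]
        refine Finset.sum_congr rfl fun i _ => ?_
        ring
      rw [Finset.sum_congr rfl fun j _ => e5 j, Finset.sum_comm, Finset.mul_sum]
      refine Finset.sum_congr rfl fun i _ => ?_
      rw [← Finset.mul_sum, ← Finset.mul_sum]
    · intro j _
      exact int_v h.mv j (hχ.smooth.continuous.mul (cd_dir hf _).continuous) hχ.compact.mul_right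
  have e3 : ∫ x, Phi (W x) * ∑ j, v x j * fderiv ℝ χ x (ev j) =
      ∑ j, ∫ x, v x j * (Phi (W x) * fderiv ℝ χ x (ev j)) := by
    rw [← integral_finsetSum]
    · refine integral_congr_ae (Eventually.of_forall fun x => ?_)
      change Phi (W x) * _ = ∑ j, v x j * (Phi (W x) * fderiv ℝ χ x (ev j))
      rw [Finset.mul_sum]
      refine Finset.sum_congr rfl fun j _ => ?_
      ring
    · intro j _
      exact int_v h.mv j (hf.continuous.mul (cd_dir hχ.smooth _).continuous)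
        (cs_dir hχ.compact _).mul_left
  rw [e2, e3]
  linarith

theorem stmP : StmP := fun _ _ hW hχ => ⟨first hW hχ, fun _ _ h => second hW hχ h⟩

end Pool.Agent.Q225.HV
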